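import Pool.Agent.X185.RS.Core

/-!
# Restricted sums in `ℤ/p` with boundedly many summands: disproof

`restrictedSum A B F` is `A +_F B = {a + b : a ∈ A, b ∈ B, (a, b) ∉ F}` and `DegLe F d` says that
the maximum degree of `F` is at most `d` (`Pool/Agent/X185/RS/Core.lean`).
-/

set_option autoImplicit false

namespace Pool.Agent.Results.MP_329cea_co.Disproof

open Pool.Agent.X185.RS

/-- The assertion of the problem for given `β`, threshold `n₀` and constant `c`. -/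
def Holds (β : ℝ) (n₀ c : ℕ) : Prop :=
  ∀ p : ℕ, p.Prime → ∀ A : Finset (ZMod p), n₀ ≤ A.card → (A.card : ℝ) < (1 - β) * p / 2 →
    ∀ (d : ℕ) (F : Finset (ZMod p × ZMod p)), F ⊆ A ×ˢ A → DegLe F d →
      ∃ B ⊆ A, B.card ≤ c ∧ 2 * (A.card : ℤ) - 2 * d - 1 ≤ ((restrictedSum A B F).card : ℤ)

theorem exists_bad (β : ℝ) (hβ : β < 1) (n₀ : ℕ) :
    ∃ p : ℕ, p.Prime ∧ ∃ (A : Finset (ZMod p)) (F : Finset (ZMod p × ZMod p)),
      n₀ ≤ A.card ∧ 3 ≤ A.card ∧ (A.card : ℝ) < (1 - β) * p / 2 ∧ F ⊆ A ×ˢ A ∧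
      DegLe F (A.card - 3) ∧ ∀ B ⊆ A, (restrictedSum A B F).card ≤ 4 := by
  have hβ' : 0 < 1 - β := by linarith
  obtain ⟨w, hw⟩ : ∃ w : ℕ, 8 / (1 - β) + 4 ≤ w := exists_nat_ge _
  have hw8 : 8 ≤ (1 - β) * w := by
    have h1 : 8 / (1 - β) ≤ w := by linarith
    rw [div_le_iff₀ hβ'] at h1
    linarith
  have hw4 : 4 ≤ w := by
    have h1 : (0 : ℝ) < 8 / (1 - β) := by positivity
    have h2 : (4 : ℝ) ≤ w := by linarith
    exact_mod_cast h2
  have : NeZero w := ⟨by omega⟩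
  obtain ⟨p, hpgt, hp, hpmod⟩ := Nat.forall_exists_prime_gt_and_eq_mod
    (q := w) (a := -1) (isUnit_one.neg) (w * (n₀ + w + 5))
  have hdvd : w ∣ p + 1 := by
    rw [← ZMod.natCast_eq_zero_iff]
    push_cast
    rw [hpmod]
    ring
  obtain ⟨M, hM⟩ := hdvd
  have hM1 : n₀ + w + 5 < M := by
    have h1 : w * (n₀ + w + 5) < w * M := by omega
    exact Nat.lt_of_mul_lt_mul_left h1
  obtain ⟨N, rfl⟩ : ∃ N, M = N + 1 := ⟨M - 1, by omega⟩
  have hpN : p = w * N + (w - 1) := by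
    rw [mul_add, mul_one] at hM
    omega
  obtain ⟨A, F, h1, h2, h3, h4, h5, h6⟩ := example_exists (p := p) hw4 (by omega : 2 ≤ N) hpN
  refine ⟨p, hp, A, F, by omega, h4, ?_, h3, h5, fun B hB => ?_⟩
  · have h7 : (A.card : ℝ) ≤ w + 2 * N := by exact_mod_cast h2
    have h8 : ((w * N : ℕ) : ℝ) ≤ p := by
      rw [hpN]
      exact_mod_cast Nat.le_add_right _ _
    have h9 : (w : ℝ) < 2 * N := by
      have : w < 2 * N := by omega
      exact_mod_cast this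
    push_cast at h8
    have h10 : 8 * (N : ℝ) ≤ (1 - β) * (w * N) := by
      have := mul_le_mul_of_nonneg_right hw8 (Nat.cast_nonneg (α := ℝ) N)
      linarith
    have h11 : (1 - β) * (w * N) ≤ (1 - β) * p := mul_le_mul_of_nonneg_left h8 hβ'.le
    linarith
  · rcases h6 B with h | h
    · exact h
    · exact absurd hB h

/-- Q1 is answered in the negative; moreover, for every `β < 1` the assertion fails for all
thresholds `n₀` and all constants `c`. -/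
theorem result :
    (¬ ∀ β : ℝ, 0 < β → ∃ c : ℕ, Holds β 1 c) ∧
    (∀ β : ℝ, β < 1 → ∀ n₀ c : ℕ, ¬ Holds β n₀ c) ∧
    (∀ β : ℝ, β < 1 → ∀ n₀ : ℕ, ∃ p : ℕ, p.Prime ∧
      ∃ (A : Finset (ZMod p)) (F : Finset (ZMod p × ZMod p)),
        n₀ ≤ A.card ∧ 3 ≤ A.card ∧ (A.card : ℝ) < (1 - β) * p / 2 ∧ F ⊆ A ×ˢ A ∧
        DegLe F (A.card - 3) ∧ ∀ B ⊆ A, (restrictedSum A B F).card ≤ 4) := by
  have key : ∀ β : ℝ, β < 1 → ∀ n₀ c : ℕ, ¬ Holds β n₀ c := by
    intro β hβ n₀ c h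
    obtain ⟨p, hp, A, F, h1, h3, h2, hF, hdeg, hall⟩ := exists_bad β hβ n₀
    obtain ⟨B, hB, _, hsum⟩ := h p hp A h1 h2 (A.card - 3) F hF hdeg
    have h4 := hall B hB
    have h5 : ((A.card - 3 : ℕ) : ℤ) = (A.card : ℤ) - 3 := by omega
    rw [h5] at hsum
    omega
  refine ⟨fun h => ?_, key, exists_bad⟩
  obtain ⟨c, hc⟩ := h (1 / 2) (by norm_num)
  exact key (1 / 2) (by norm_num) 1 c hc

end Pool.Agent.Results.MP_329cea_co.Disproof
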